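import Pool.Agent.H8.TX.Targets
import Pool.Agent.H74.TD.RL2

/-!
# RLB: relations with coefficients in a number field and without common factor (helper54)
-/

set_option autoImplicit false

open MvPolynomial
open Pool.Agent.H12.ZD (pmap)
open Pool.Agent.H18.HIT Pool.Agent.H18.HX Pool.Agent.H18.VZ
open Pool.Agent.H8.ZA (HFam Const NA)
open Pool.Agent.H8.TD (lc dg Wsp Cop dh)
open Pool.Agent.H8.TX
open Pool.Agent.H74.TD (vh vh_apply vh_monomial vh_C homog nonc desc vh_sum)

namespace Pool.Agent.H54.TX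

theorem pr5 {T : Tup 5 Qb} {y : Fin 5 → Qb} {n : ℕ} {i j : Fin 5}
    (h0 : ∀ l, (pmap T)^[l] y 1 ≠ 0) (hp : (van T y).IsPrime)
    (A B : Polynomial (Polynomial Qb))
    (h : ∀ l, vh ((pmap T)^[l] y j / (pmap T)^[l] y 1)
        ((pmap T)^[n + l] y i / (pmap T)^[n + l] y 1) A = 0 ∨
      vh ((pmap T)^[l] y j / (pmap T)^[l] y 1)
        ((pmap T)^[n + l] y i / (pmap T)^[n + l] y 1) B = 0) :
    (∀ l, vh ((pmap T)^[l] y j / (pmap T)^[l] y 1)
        ((pmap T)^[n + l] y i / (pmap T)^[n + l] y 1) A = 0) ∨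
      ∀ l, vh ((pmap T)^[l] y j / (pmap T)^[l] y 1)
        ((pmap T)^[n + l] y i / (pmap T)^[n + l] y 1) B = 0 := by
  have e1 : ∀ (l : ℕ) (s : Fin 5), (aeval ((pmap T)^[l] y) : Po 5 Qb →ₐ[Qb] Qb) (it T n s) =
      (pmap T)^[n + l] y s := by
    intro l s
    rw [Function.iterate_add_apply, ← pmap_it T n ((pmap T)^[l] y)]
    rfl
  have e2 : ∀ (l : ℕ) (s : Fin 5), (aeval ((pmap T)^[l] y) : Po 5 Qb →ₐ[Qb] Qb) (X s) =
      (pmap T)^[l] y s := fun l s => aeval_X _ _
  have hh := homog (fun l => (aeval ((pmap T)^[l] y) : Po 5 Qb →ₐ[Qb] Qb)) (X 1) (X j)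
    (it T n 1) (it T n i) (fun l => by rw [e2]; exact h0 l) (fun l => by rw [e1]; exact h0 _)
  obtain ⟨MA, NA, HA, hA⟩ := hh A
  obtain ⟨MB, NB, HB, hB⟩ := hh B
  simp only [e1, e2] at hA hB
  have hc : ∀ (l : ℕ) (q : Po 5 Qb), eval ((pmap T)^[l] y) q =
      (aeval ((pmap T)^[l] y) : Po 5 Qb →ₐ[Qb] Qb) q := fun l q => rfl
  have hm : HA * HB ∈ van T y := by
    rw [mem_van]
    intro l
    rw [hc, map_mul, hA, hB]
    rcases h l with h1 | h1
    · rw [h1]; ring
    · rw [h1]; ring
  have hz : ∀ (l M N : ℕ), (pmap T)^[l] y 1 ^ M * (pmap T)^[n + l] y 1 ^ N ≠ 0 :=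
    fun l M N => mul_ne_zero (pow_ne_zero _ (h0 _)) (pow_ne_zero _ (h0 _))
  rcases hp.mem_or_mem hm with h1 | h1
  · left
    intro l
    have h2 := mem_van.1 h1 l
    rw [hc, hA] at h2
    exact (mul_eq_zero.1 h2).resolve_left (hz _ _ _)
  · right
    intro l
    have h2 := mem_van.1 h1 l
    rw [hc, hB] at h2
    exact (mul_eq_zero.1 h2).resolve_left (hz _ _ _)

theorem pf_RLB : T_RLB := by
  intro K T y n m i j G hK h0 hp hne hG hm hv
  set t : ℕ → Qb := fun l => (pmap T)^[l] y j / (pmap T)^[l] y 1 with ht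
  set f : ℕ → Qb := fun l => (pmap T)^[n + l] y i / (pmap T)^[n + l] y 1 with hf
  have hpr : ∀ A B : Polynomial (Polynomial Qb),
      (∀ l, vh (t l) (f l) A = 0 ∨ vh (t l) (f l) B = 0) →
      (∀ l, vh (t l) (f l) A = 0) ∨ ∀ l, vh (t l) (f l) B = 0 := fun A B h => pr5 h0 hp A B h
  have hnc : ∀ q : Polynomial Qb, q ≠ 0 → ∃ l, q.eval (t l) ≠ 0 := by
    intro q hq
    refine nonc hpr (fun c => ?_) _ q rfl hq
    obtain ⟨l, hl⟩ := hne c
    refine ⟨l, fun h => hl ?_⟩
    rw [← h, ht]
    exact (div_mul_cancel₀ _ (h0 l)).symm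
  -- a nonzero relation with coefficients in `K`
  obtain ⟨G1, hG1, hm1, hv1⟩ : ∃ G1 : Polynomial (Polynomial K), G1 ≠ 0 ∧
      (∀ s, (G1.coeff s).natDegree ≤ m) ∧
      ∀ l, vh (t l) (f l) (G1.map (Polynomial.mapRingHom (algebraMap K Qb))) = 0 := by
    obtain ⟨s0, hs0⟩ : ∃ s, G.coeff s ≠ 0 := by
      by_contra hc
      push Not at hc
      exact hG (Polynomial.ext fun s => by rw [hc s, Polynomial.coeff_zero])
    obtain ⟨u0, hu0⟩ : ∃ u, (G.coeff s0).coeff u ≠ 0 := by
      by_contra hc
      push Not at hc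
      exact hs0 (Polynomial.ext fun s => by rw [hc s, Polynomial.coeff_zero])
    obtain ⟨lam, hlam⟩ : ∃ lam : Module.Dual K Qb, lam ((G.coeff s0).coeff u0) ≠ 0 := by
      by_contra hc
      push Not at hc
      exact hu0 ((Module.forall_dual_apply_eq_zero_iff K _).1 hc)
    let c : ℕ → Polynomial K := fun s =>
      ∑ u ∈ Finset.range (m + 1), Polynomial.monomial u (lam ((G.coeff s).coeff u))
    let G1 : Polynomial (Polynomial K) :=
      ∑ s ∈ Finset.range (G.natDegree + 1), Polynomial.monomial s (c s)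
    have hc : ∀ s u, (c s).coeff u = lam ((G.coeff s).coeff u) := by
      intro s u
      simp only [c]
      rw [Polynomial.finsetSum_coeff]
      simp only [Polynomial.coeff_monomial]
      rw [Finset.sum_ite_eq' (Finset.range (m + 1)) u]
      split_ifs with h
      · rfl
      · rw [Polynomial.coeff_eq_zero_of_natDegree_lt, map_zero]
        have h1 := hm s
        rw [Finset.mem_range] at h
        omega
    have hg : ∀ s, G1.coeff s = c s := by
      intro s
      simp only [G1]
      rw [Polynomial.finsetSum_coeff]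
      simp only [Polynomial.coeff_monomial]
      rw [Finset.sum_ite_eq' (Finset.range (G.natDegree + 1)) s]
      split_ifs with h
      · rfl
      · ext u
        rw [hc, Polynomial.coeff_eq_zero_of_natDegree_lt (p := G)]
        · simp
        · rw [Finset.mem_range] at h
          omega
    have hdc : ∀ s, (c s).natDegree ≤ m := by
      intro s
      rw [Polynomial.natDegree_le_iff_coeff_eq_zero]
      intro u hu
      rw [hc, Polynomial.coeff_eq_zero_of_natDegree_lt (lt_of_le_of_lt (hm s) hu), map_zero]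
    have hd1 : G1.natDegree ≤ G.natDegree := by
      rw [Polynomial.natDegree_le_iff_coeff_eq_zero]
      intro s hs
      rw [hg]
      ext u
      rw [hc, Polynomial.coeff_eq_zero_of_natDegree_lt hs]
      simp
    refine ⟨G1, ?_, fun s => by rw [hg]; exact hdc s, fun l => ?_⟩
    · intro h
      apply hlam
      rw [← hc, ← hg, h]
      simp
    · obtain ⟨t', ht'⟩ : ∃ t' : K, (algebraMap K Qb) t' = t l :=
        ⟨⟨t l, K.div_mem (hK l j) (hK l 1)⟩, rfl⟩
      obtain ⟨f', hf'⟩ : ∃ f' : K, (algebraMap K Qb) f' = f l :=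
        ⟨⟨f l, K.div_mem (hK (n + l) i) (hK (n + l) 1)⟩, rfl⟩
      have h1 : vh (t l) (f l) (G1.map (Polynomial.mapRingHom (algebraMap K Qb))) =
          algebraMap K Qb (vh t' f' G1) := by
        rw [vh_sum (t l) (f l) _ (G.natDegree + 1) (m + 1), vh_sum t' f' G1 (G.natDegree + 1)
          (m + 1), map_sum]
        · apply Finset.sum_congr rfl
          intro s _
          rw [map_mul, map_pow, map_sum, hf']
          congr 1
          apply Finset.sum_congr rfl
          intro u _
          rw [map_mul, map_pow, ht', Polynomial.coeff_map, Polynomial.coe_mapRingHom,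
            Polynomial.coeff_map]
        · omega
        · intro s
          rw [hg]
          have := hdc s
          omega
        · have := Polynomial.natDegree_map_le (f := Polynomial.mapRingHom (algebraMap K Qb))
            (p := G1)
          omega
        · intro s
          rw [Polynomial.coeff_map, Polynomial.coe_mapRingHom, hg]
          have h2 := Polynomial.natDegree_map_le (f := algebraMap K Qb) (p := c s)
          have h3 := hdc s
          omega
      rw [h1]
      have h2 : vh t' f' G1 = lam (vh (t l) (f l) G) := by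
        rw [vh_sum (t l) (f l) G (G.natDegree + 1) (m + 1) (by omega)
          (fun s => by have := hm s; omega), vh_sum t' f' G1 (G.natDegree + 1)
          (m + 1) (by omega) (fun s => by rw [hg]; have := hdc s; omega), map_sum]
        apply Finset.sum_congr rfl
        intro s _
        rw [Finset.sum_mul, Finset.sum_mul, map_sum]
        apply Finset.sum_congr rfl
        intro u _
        rw [hg, hc, ← ht', ← hf', ← map_pow, ← map_pow]
        have h3 : (G.coeff s).coeff u * (algebraMap K Qb) (t' ^ u) *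
            (algebraMap K Qb) (f' ^ s) = (t' ^ u * f' ^ s) • (G.coeff s).coeff u := by
          rw [Algebra.smul_def, map_mul]
          ring
        rw [h3, map_smul, smul_eq_mul]
        ring
      rw [h2, vh_apply, hv l, map_zero, map_zero]
  obtain ⟨G', h1, h2, h3⟩ := desc (m := m) hpr hnc _ G1 rfl hG1 hm1 hv1
  refine ⟨G'.map (Polynomial.mapRingHom (algebraMap K Qb)), ?_, ?_, ?_, ?_⟩
  · intro s u
    rw [Polynomial.coeff_map, Polynomial.coe_mapRingHom, Polynomial.coeff_map]
    exact ((G'.coeff s).coeff u).2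
  · intro s
    rw [Polynomial.coeff_map, Polynomial.coe_mapRingHom]
    exact Polynomial.natDegree_map_le.trans (h1 s)
  · intro r
    obtain ⟨s, hs⟩ := h2 r
    refine ⟨s, ?_⟩
    rw [Polynomial.coeff_map, Polynomial.coe_mapRingHom, Polynomial.eval_map_algebraMap]
    exact hs
  · intro l
    exact h3 l

end Pool.Agent.H54.TX
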